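import Pool.Agent.L0h98.GS.Def

/-!
# Module GREEDY: many colours
-/

set_option autoImplicit false

namespace Pool.Agent.L0h28.GS

open Finset Classical
open Pool.Agent.L0h98.GS

variable {V : Type} [Fintype V]

/-- the maps which are proper on `S` -/
noncomputable def PC (G : SimpleGraph V) (q : ℕ) (S : Finset V) : Finset (V → Fin q) :=
  univ.filter fun c => ∀ u ∈ S, ∀ v ∈ S, G.Adj u v → c u ≠ c v

theorem PC_step (G : SimpleGraph V) (Δ q : ℕ) (hΔ : ∀ v, (G.neighborSet v).ncard ≤ Δ)
    (S : Finset V) (w : V) (hw : w ∉ S) :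
    (PC G q S).card * (q - Δ) ≤ (PC G q (insert w S)).card * q := by
  set X : (V → Fin q) → Finset (Fin q) := fun c =>
    univ.filter fun x => ∀ v, G.Adj w v → c v ≠ x with hX
  have hXc : ∀ c, q - Δ ≤ (X c).card := by
    intro c
    have h1 : (univ : Finset (Fin q)) ⊆ X c ∪ (G.neighborSet w).toFinset.image c := by
      intro x _
      by_cases h : ∀ v, G.Adj w v → c v ≠ x
      · exact Finset.mem_union_left _ (Finset.mem_filter.2 ⟨Finset.mem_univ _, h⟩)
      · push Not at h
        obtain ⟨v, h2, h3⟩ := h
        exact Finset.mem_union_right _ (Finset.mem_image.2 ⟨v, by simpa using h2, h3⟩)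
    have h2 := (Finset.card_le_card h1).trans (Finset.card_union_le _ _)
    rw [Finset.card_univ, Fintype.card_fin] at h2
    have h3 : ((G.neighborSet w).toFinset.image c).card ≤ Δ := by
      refine Finset.card_image_le.trans ?_
      have := hΔ w
      rwa [Set.ncard_eq_toFinset_card'] at this
    omega
  have h1 : (PC G q S).card * (q - Δ) ≤ ((PC G q S).sigma X).card := by
    rw [Finset.card_sigma, ← smul_eq_mul, ← Finset.sum_const]
    exact Finset.sum_le_sum fun c _ => hXc c
  refine h1.trans ?_
  have h2 : (PC G q (insert w S) ×ˢ (univ : Finset (Fin q))).card =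
      (PC G q (insert w S)).card * q := by
    rw [Finset.card_product, Finset.card_univ, Fintype.card_fin]
  rw [← h2]
  refine Finset.card_le_card_of_injOn
    (fun p => (Function.update p.1 w p.2, p.1 w)) ?_ ?_
  · rintro ⟨c, x⟩ hp
    rw [Finset.mem_coe, Finset.mem_sigma] at hp
    obtain ⟨h3, h4⟩ := hp
    simp only at h3 h4
    rw [PC, Finset.mem_filter] at h3
    rw [hX, Finset.mem_filter] at h4
    rw [Finset.mem_coe, Finset.mem_product]
    refine ⟨?_, Finset.mem_univ _⟩
    simp only
    rw [PC, Finset.mem_filter]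
    refine ⟨Finset.mem_univ _, fun u hu v hv huv => ?_⟩
    rw [Finset.mem_insert] at hu hv
    have hne : u ≠ v := G.ne_of_adj huv
    by_cases huw : u = w
    · subst huw
      rw [Function.update_self, Function.update_of_ne hne.symm]
      exact (h4.2 v huv).symm
    · by_cases hvw : v = w
      · subst hvw
        rw [Function.update_self, Function.update_of_ne hne]
        exact h4.2 u huv.symm
      · rw [Function.update_of_ne huw, Function.update_of_ne hvw]
        exact h3.2 u (hu.resolve_left huw) v (hv.resolve_left hvw) huv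
  · rintro ⟨c, x⟩ - ⟨c', x'⟩ - h
    simp only [Prod.mk.injEq] at h
    obtain ⟨h3, h4⟩ := h
    have h5 : x = x' := by
      have := congrFun h3 w
      simpa using this
    have h6 : c = c' := by
      funext v
      by_cases hv : v = w
      · rw [hv, h4]
      · have := congrFun h3 v
        simpa [Function.update_of_ne hv] using this
    subst h5 h6
    rfl

theorem PC_all (G : SimpleGraph V) (Δ q : ℕ) (hΔ : ∀ v, (G.neighborSet v).ncard ≤ Δ)
    (S : Finset V) : q ^ Fintype.card V * (q - Δ) ^ S.card ≤ (PC G q S).card * q ^ S.card := by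
  induction S using Finset.induction_on with
  | empty =>
    have : PC G q ∅ = univ := by
      rw [PC, Finset.filter_eq_self]
      simp
    rw [this, Finset.card_univ, Fintype.card_fun, Fintype.card_fin]
    simp
  | insert w S hw ih =>
    rw [Finset.card_insert_of_notMem hw]
    have h1 := PC_step G Δ q hΔ S w hw
    calc q ^ Fintype.card V * (q - Δ) ^ (S.card + 1) =
        (q ^ Fintype.card V * (q - Δ) ^ S.card) * (q - Δ) := by ring
      _ ≤ ((PC G q S).card * q ^ S.card) * (q - Δ) := Nat.mul_le_mul_right _ ih
      _ = ((PC G q S).card * (q - Δ)) * q ^ S.card := by ring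
      _ ≤ ((PC G q (insert w S)).card * q) * q ^ S.card := Nat.mul_le_mul_right _ h1
      _ = (PC G q (insert w S)).card * q ^ (S.card + 1) := by ring

theorem PC_univ (G : SimpleGraph V) (q : ℕ) :
    (PC G q univ).card = Nat.card (G.Coloring (Fin q)) := by
  have e : {c // c ∈ PC G q univ} ≃ G.Coloring (Fin q) :=
    { toFun := fun c => SimpleGraph.Coloring.mk c.1 (fun {u v} h =>
        (Finset.mem_filter.1 c.2).2 u (Finset.mem_univ _) v (Finset.mem_univ _) h)
      invFun := fun C => ⟨fun v => C v, Finset.mem_filter.2 ⟨Finset.mem_univ _,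
        fun u _ v _ h => C.valid h⟩⟩
      left_inv := fun c => rfl
      right_inv := fun C => rfl }
  rw [← Nat.card_congr e, Nat.card_eq_fintype_card, Fintype.card_coe]

theorem t_GREEDY : S_GREEDY := by
  intro V _ G Δ q η hΔ hη hη1 hq
  rw [← PC_univ]
  rcases Nat.eq_zero_or_pos q with rfl | hq0
  · rcases isEmpty_or_nonempty V with hV | hV
    · have h1 : (PC G 0 univ) = univ := by
        rw [PC, Finset.filter_eq_self]
        intro c _ u
        exact isEmptyElim u
      rw [h1, Finset.card_univ, Fintype.card_eq_zero (α := V)]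
      simp
    · have : Fintype.card V ≠ 0 := Fintype.card_ne_zero
      simp [this]
  · have h1 := PC_all G Δ q hΔ univ
    rw [Finset.card_univ, mul_comm] at h1
    have h2 := Nat.le_of_mul_le_mul_right h1 (by positivity)
    have h3 : Δ ≤ q := by
      have : (Δ : ℝ) ≤ q := hq.trans (by
        have : (0 : ℝ) ≤ q := Nat.cast_nonneg q
        nlinarith)
      exact_mod_cast this
    have h4 : (((q - Δ : ℕ) : ℝ)) = q - Δ := by
      rw [Nat.cast_sub h3]
    calc ((1 - η) * q) ^ Fintype.card V ≤ ((q - Δ : ℕ) : ℝ) ^ Fintype.card V := by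
          refine pow_le_pow_left₀ ?_ ?_ _
          · have : (0 : ℝ) ≤ q := Nat.cast_nonneg q
            nlinarith
          · rw [h4]
            linarith
      _ ≤ ((PC G q univ).card : ℝ) := by exact_mod_cast h2

end Pool.Agent.L0h28.GS
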