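import Pool.Agent.L0h28.GS.Switch

/-!
# Module SWI: a positive proportion of the configurations has no short closed trails
-/

set_option autoImplicit false

namespace Pool.Agent.L0h28.GS

open Finset Classical
open Pool.Agent.L0h98.GS
open Pool.Agent.N404.LF (cnt)

variable {V : Type} {m : ℕ}

/-- the bad edges -/
noncomputable def Bs (n : ℕ) (a : Hf m → V) (π : Equiv.Perm (Hf m)) : Finset (Fin m) :=
  univ.filter fun i => Bd n (a ∘ π) i

/-- the configurations with at most `b` bad edges -/
noncomputable def Tb (n : ℕ) (a : Hf m → V) (b : ℕ) : Finset (Equiv.Perm (Hf m)) :=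
  univ.filter fun π => (Bs n a π).card ≤ b

theorem fib_le {Δ : ℕ} {a : Hf m → V} (ha : ∀ v, cnt a v ≤ Δ) (π : Equiv.Perm (Hf m)) (v : V) :
    (univ.filter fun x => (a ∘ π) x = v).card ≤ Δ := by
  refine le_trans ?_ (ha v)
  unfold cnt
  refine Finset.card_le_card_of_injOn π (fun x hx => ?_) π.injective.injOn
  simp only [Finset.coe_filter, Set.mem_setOf_eq, Finset.mem_univ, true_and] at hx ⊢
  exact hx

/-- the number of the edges near to the edge `i` -/
theorem near_le {Δ : ℕ} {α : Hf m → V} (hα : ∀ v, (univ.filter fun x => α x = v).card ≤ Δ)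
    (n : ℕ) (i : Fin m) :
    (univ.filter fun j => ¬ Far α n i j).card ≤ 2 * (Δ * (Δ + 1) ^ n) := by
  have hsub : (univ.filter fun j => ¬ Far α n i j) ⊆
      (univ.filter fun x : Hf m => D α ∅ n (α (i, false)) (α x)).image Prod.fst ∪
      (univ.filter fun x : Hf m => D α ∅ n (α (i, true)) (α x)).image Prod.fst := by
    intro j hj
    rw [Finset.mem_filter] at hj
    unfold Far at hj
    have hj2 := hj.2
    push Not at hj2
    obtain ⟨b, c, h⟩ := hj2
    cases b
    · exact Finset.mem_union_left _ (Finset.mem_image.2 ⟨(j, c), by simpa using h, rfl⟩)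
    · exact Finset.mem_union_right _ (Finset.mem_image.2 ⟨(j, c), by simpa using h, rfl⟩)
  refine (Finset.card_le_card hsub).trans ((Finset.card_union_le _ _).trans ?_)
  have h1 := Finset.card_image_le (s := univ.filter fun x : Hf m => D α ∅ n (α (i, false)) (α x))
    (f := Prod.fst)
  have h2 := Finset.card_image_le (s := univ.filter fun x : Hf m => D α ∅ n (α (i, true)) (α x))
    (f := Prod.fst)
  have h3 := ball hα (α (i, false)) n
  have h4 := ball hα (α (i, true)) n
  omega

/-- one step -/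
theorem step {Δ n B : ℕ} {a : Hf m → V} (ha : ∀ v, cnt a v ≤ Δ)
    (hm : 2 * (B + 2 * (Δ * (Δ + 1) ^ n)) ≤ m) (hm0 : 0 < m) {b : ℕ} (hb : b + 1 ≤ B) :
    (Tb n a (b + 1)).card ≤ (1 + 2 * (Δ * (Δ + 1) ^ n)) * (Tb n a b).card := by
  set Q := Δ * (Δ + 1) ^ n with hQ
  set E : Finset (Equiv.Perm (Hf m)) := univ.filter fun π => (Bs n a π).card = b + 1 with hE
  have hbad : ∀ π : Equiv.Perm (Hf m), ∃ i : Fin m, π ∈ E → Bd n (a ∘ π) i := by
    intro π
    by_cases h : π ∈ E
    · rw [hE, Finset.mem_filter] at h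
      have : (Bs n a π).Nonempty := by
        rw [← Finset.card_pos, h.2]; omega
      obtain ⟨i, hi⟩ := this
      exact ⟨i, fun _ => (Finset.mem_filter.1 hi).2⟩
    · exact ⟨⟨0, hm0⟩, fun h' => absurd h' h⟩
  choose f hf using hbad
  -- the good partners
  set J : Equiv.Perm (Hf m) → Finset (Fin m) := fun π =>
    univ.filter fun j => ¬ Bd n (a ∘ π) j ∧ Far (a ∘ π) n (f π) j with hJ
  have hJc : ∀ π ∈ E, m ≤ 2 * (J π).card := by
    intro π hπ
    have hcov : (univ : Finset (Fin m)) ⊆
        J π ∪ (Bs n a π ∪ univ.filter fun j => ¬ Far (a ∘ π) n (f π) j) := by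
      intro j _
      by_cases h1 : Bd n (a ∘ π) j
      · exact Finset.mem_union_right _ (Finset.mem_union_left _ (Finset.mem_filter.2
          ⟨Finset.mem_univ _, h1⟩))
      · by_cases h2 : Far (a ∘ π) n (f π) j
        · exact Finset.mem_union_left _ (Finset.mem_filter.2 ⟨Finset.mem_univ _, h1, h2⟩)
        · exact Finset.mem_union_right _ (Finset.mem_union_right _ (Finset.mem_filter.2
            ⟨Finset.mem_univ _, h2⟩))
    have h1 := Finset.card_le_card hcov
    rw [Finset.card_univ, Fintype.card_fin] at h1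
    have h2 := Finset.card_union_le (J π) (Bs n a π ∪ univ.filter fun j => ¬ Far (a ∘ π) n (f π) j)
    have h3 := Finset.card_union_le (Bs n a π) (univ.filter fun j => ¬ Far (a ∘ π) n (f π) j)
    have h4 := near_le (fib_le ha π) n (f π)
    have h5 : (Bs n a π).card = b + 1 := (Finset.mem_filter.1 hπ).2
    omega
  -- the pairs
  set Pr : Equiv.Perm (Hf m) → Finset (Fin m × Fin m) := fun π' =>
    univ.filter fun p => D (a ∘ π') ∅ n ((a ∘ π') (p.1, false)) ((a ∘ π') (p.2, false)) with hPr
  have hPrc : ∀ π' : Equiv.Perm (Hf m), (Pr π').card ≤ m * Q := by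
    intro π'
    have hsub : Pr π' ⊆ (univ : Finset (Fin m)).biUnion fun i =>
        ((univ.filter fun x : Hf m => D (a ∘ π') ∅ n ((a ∘ π') (i, false)) ((a ∘ π') x)).image
          Prod.fst).image fun j => (i, j) := by
      rintro ⟨i, j⟩ hp
      rw [hPr, Finset.mem_filter] at hp
      refine Finset.mem_biUnion.2 ⟨i, Finset.mem_univ _, Finset.mem_image.2 ⟨j, ?_, rfl⟩⟩
      exact Finset.mem_image.2 ⟨(j, false), Finset.mem_filter.2 ⟨Finset.mem_univ _, hp.2⟩, rfl⟩
    refine (Finset.card_le_card hsub).trans ?_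
    refine (Finset.card_biUnion_le_card_mul _ _ Q fun i _ => ?_).trans ?_
    · exact Finset.card_image_le.trans (Finset.card_image_le.trans (ball (fib_le ha π') _ n))
    · rw [Finset.card_univ, Fintype.card_fin]
  have hne : ∀ π ∈ E, ∀ j ∈ J π, f π ≠ j := by
    intro π hπ j hj h
    rw [hJ, Finset.mem_filter] at hj
    exact hj.2.1 (h ▸ hf π hπ)
  have hmain : (E.sigma J).card ≤ ((Tb n a b).sigma Pr).card := by
    refine Finset.card_le_card_of_injOn
      (fun p => (⟨(sw (f p.1) p.2).trans p.1, (f p.1, p.2)⟩ :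
        (_ : Equiv.Perm (Hf m)) × (Fin m × Fin m))) ?_ ?_
    · rintro ⟨π, j⟩ hp
      rw [Finset.mem_coe, Finset.mem_sigma] at hp
      obtain ⟨h1, h2⟩ := hp
      simp only at h1 h2
      have h3 := hne π h1 j h2
      have h4 := hf π h1
      rw [hJ, Finset.mem_filter] at h2
      obtain ⟨-, h5, h6⟩ := h2
      have hcomp : a ∘ ((sw (f π) j).trans π) = (a ∘ π) ∘ sw (f π) j := rfl
      rw [Finset.mem_coe, Finset.mem_sigma]
      refine ⟨?_, ?_⟩
      · simp only
        rw [Tb, Finset.mem_filter]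
        refine ⟨Finset.mem_univ _, ?_⟩
        have hsub : Bs n a ((sw (f π) j).trans π) ⊆ (Bs n a π).erase (f π) := by
          intro c hc
          rw [Bs, Finset.mem_filter, hcomp] at hc
          have hc1 : c ≠ f π := by
            rintro rfl
            exact sw1 h3 h5 h6 hc.2
          have hc2 : c ≠ j := by
            rintro rfl
            exact sw2 h3 h5 h6 hc.2
          exact Finset.mem_erase.2 ⟨hc1, Finset.mem_filter.2 ⟨Finset.mem_univ _,
            sw3 h3 h5 h6 hc1 hc2 hc.2⟩⟩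
        have h7 := Finset.card_le_card hsub
        have h8 : f π ∈ Bs n a π := Finset.mem_filter.2 ⟨Finset.mem_univ _, h4⟩
        rw [Finset.card_erase_of_mem h8, (Finset.mem_filter.1 h1).2] at h7
        exact h7
      · simp only
        rw [hPr, Finset.mem_filter]
        exact ⟨Finset.mem_univ _, sw4 h3 h6 h4⟩
    · rintro ⟨π, j⟩ hp ⟨π', j'⟩ hp' h
      simp only [Sigma.mk.injEq, heq_eq_eq, Prod.mk.injEq] at h
      obtain ⟨h1, h2, h3⟩ := h
      subst h3
      rw [h2] at h1
      have : π = π' := by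
        have h4 := congrArg (fun σ => (sw (f π') j).symm.trans σ) h1
        simp only [← Equiv.trans_assoc, Equiv.symm_trans_self, Equiv.refl_trans] at h4
        exact h4
      subst this
      rfl
  have h1 : m * E.card ≤ 2 * (E.sigma J).card := by
    rw [Finset.card_sigma, Finset.mul_sum, mul_comm, ← smul_eq_mul, ← Finset.sum_const]
    exact Finset.sum_le_sum hJc
  have h2 : ((Tb n a b).sigma Pr).card ≤ (Tb n a b).card * (m * Q) := by
    rw [Finset.card_sigma, ← smul_eq_mul, ← Finset.sum_const]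
    exact Finset.sum_le_sum fun π _ => hPrc π
  have h3 : m * E.card ≤ m * (2 * Q * (Tb n a b).card) := by
    calc m * E.card ≤ 2 * (E.sigma J).card := h1
      _ ≤ 2 * ((Tb n a b).card * (m * Q)) := Nat.mul_le_mul_left _ (hmain.trans h2)
      _ = m * (2 * Q * (Tb n a b).card) := by ring
  have h4 : E.card ≤ 2 * Q * (Tb n a b).card := Nat.le_of_mul_le_mul_left h3 hm0
  have h5 : Tb n a (b + 1) ⊆ Tb n a b ∪ E := by
    intro π hπ
    rw [Tb, Finset.mem_filter] at hπ
    rcases Nat.lt_or_ge (Bs n a π).card (b + 1) with h | h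
    · exact Finset.mem_union_left _ (Finset.mem_filter.2 ⟨Finset.mem_univ _, by omega⟩)
    · exact Finset.mem_union_right _ (Finset.mem_filter.2 ⟨Finset.mem_univ _, by omega⟩)
  have h6 := (Finset.card_le_card h5).trans (Finset.card_union_le _ _)
  nlinarith

theorem steps {Δ n B : ℕ} {a : Hf m → V} (ha : ∀ v, cnt a v ≤ Δ)
    (hm : 2 * (B + 2 * (Δ * (Δ + 1) ^ n)) ≤ m) (hm0 : 0 < m) {b : ℕ} (hb : b ≤ B) :
    (Tb n a b).card ≤ (1 + 2 * (Δ * (Δ + 1) ^ n)) ^ b * (Tb n a 0).card := by
  induction b with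
  | zero => simp
  | succ b ih =>
    refine (step ha hm hm0 hb).trans ?_
    rw [pow_succ', mul_assoc]
    exact Nat.mul_le_mul_left _ (ih (by omega))

theorem t_SWI (h : S_CYC) : S_SWI := by
  intro Δ g
  rcases Nat.eq_zero_or_pos g with rfl | hg
  · refine ⟨1, 0, fun V m a _ _ => ?_⟩
    have : (univ.filter fun π : Equiv.Perm (Hf m) => ∀ i, ¬ Bad 0 a π i) = univ := by
      rw [Finset.filter_eq_self]
      rintro π - i ⟨b, l, hl, -⟩
      exact absurd hl (Nat.not_lt_zero _)
    rw [this, Finset.card_univ, Fintype.card_perm, Fintype.card_prod, Fintype.card_fin,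
      Fintype.card_bool, one_mul, mul_comm]
  obtain ⟨K, m₀, hK⟩ := h Δ g
  set Q := Δ * (Δ + 1) ^ (g - 1) with hQ
  refine ⟨2 * (1 + 2 * Q) ^ (2 * K), m₀ + 2 * (2 * K + 2 * Q) + 1, fun V m a hm ha => ?_⟩
  have h1 := hK V m a (by omega) ha
  have h2 := steps (n := g - 1) (B := 2 * K) ha (by omega) (by omega) (b := 2 * K) le_rfl
  have hb : ∀ π : Equiv.Perm (Hf m), (univ.filter fun i => Bad g a π i) = Bs (g - 1) a π := by
    intro π
    unfold Bs
    refine Finset.filter_congr fun i _ => ?_
    exact bad_iff hg a π i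
  have hT0 : Tb (g - 1) a 0 = univ.filter fun π : Equiv.Perm (Hf m) => ∀ i, ¬ Bad g a π i := by
    unfold Tb
    refine Finset.filter_congr fun π _ => ?_
    rw [Nat.le_zero, Finset.card_eq_zero, ← hb, Finset.filter_eq_empty_iff]
    simp
  simp only [hb] at h1
  -- Markov
  have hN : (univ : Finset (Equiv.Perm (Hf m))).card = (2 * m).factorial := by
    rw [Finset.card_univ, Fintype.card_perm, Fintype.card_prod, Fintype.card_fin,
      Fintype.card_bool, mul_comm]
  have h3 : (2 * K + 1) * (univ \ Tb (g - 1) a (2 * K)).card ≤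
      ∑ π : Equiv.Perm (Hf m), (Bs (g - 1) a π).card := by
    rw [mul_comm, ← smul_eq_mul, ← Finset.sum_const]
    refine le_trans (Finset.sum_le_sum fun π hπ => ?_)
      (Finset.sum_le_sum_of_subset (Finset.subset_univ (univ \ Tb (g - 1) a (2 * K))))
    rw [Finset.mem_sdiff, Tb, Finset.mem_filter] at hπ
    have := hπ.2
    simp only [Finset.mem_univ, true_and] at this
    omega
  have h4 : (univ \ Tb (g - 1) a (2 * K)).card + (Tb (g - 1) a (2 * K)).card =
      (2 * m).factorial := by
    rw [← hN, Finset.card_sdiff_add_card_eq_card (Finset.subset_univ _)]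
  rw [← hT0]
  have h5 : (2 * m).factorial ≤ 2 * (Tb (g - 1) a (2 * K)).card := by
    have h6 : (2 * K + 1) * (univ \ Tb (g - 1) a (2 * K)).card ≤ K * (2 * m).factorial :=
      h3.trans h1
    nlinarith
  calc (2 * m).factorial ≤ 2 * (Tb (g - 1) a (2 * K)).card := h5
    _ ≤ 2 * ((1 + 2 * Q) ^ (2 * K) * (Tb (g - 1) a 0).card) := Nat.mul_le_mul_left _ h2
    _ = 2 * (1 + 2 * Q) ^ (2 * K) * (Tb (g - 1) a 0).card := by ring

end Pool.Agent.L0h28.GS
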