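import Pool.Agent.L0h28.GS.Walk

/-!
# Switching two edges
-/

set_option autoImplicit false

namespace Pool.Agent.L0h28.GS

open Finset Classical
open Pool.Agent.L0h98.GS

variable {V : Type} {m : ℕ}

/-- the positions exchanged -/
def sw (i j : Fin m) : Equiv.Perm (Hf m) := Equiv.swap (i, true) (j, false)

section
variable {α : Hf m → V} {i j : Fin m} (hij : i ≠ j)

theorem sw_of {x : Hf m} (h1 : x.1 ≠ i) (h2 : x.1 ≠ j) : sw i j x = x := by
  refine Equiv.swap_apply_of_ne_of_ne ?_ ?_
  · rintro rfl; exact h1 rfl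
  · rintro rfl; exact h2 rfl

include hij in
theorem sw_if : sw i j (i, false) = (i, false) := by
  refine Equiv.swap_apply_of_ne_of_ne ?_ ?_
  · simp
  · simp [hij]

include hij in
theorem sw_jt : sw i j (j, true) = (j, true) := by
  refine Equiv.swap_apply_of_ne_of_ne ?_ ?_
  · simp [hij.symm]
  · simp

theorem sw_it : sw i j (i, true) = (j, false) := Equiv.swap_apply_left _ _

theorem sw_jf : sw i j (j, false) = (i, true) := Equiv.swap_apply_right _ _

theorem D_sw {S : Set (Fin m)} (hi : i ∈ S) (hj : j ∈ S) {n : ℕ} {u v : V} :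
    D (α ∘ sw i j) S n u v ↔ D α S n u v := by
  have h : ∀ x : Hf m, x.1 ∉ S → (α ∘ sw i j) x = α x := fun x hx => by
    rw [Function.comp_apply, sw_of (fun h => hx (h ▸ hi)) (fun h => hx (h ▸ hj))]
  exact ⟨D_congr h, D_congr fun x hx => (h x hx).symm⟩

/-- far away -/
def Far (α : Hf m → V) (n : ℕ) (i j : Fin m) : Prop :=
  ∀ b c : Bool, ¬ D α ∅ n (α (i, b)) (α (j, c))

variable {n : ℕ} (hj : ¬ Bd n α j) (hfar : Far α n i j)

include hij hj hfar in
theorem sw1 : ¬ Bd n (α ∘ sw i j) i := by
  intro h
  unfold Bd at h hj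
  rw [Function.comp_apply, Function.comp_apply, sw_if hij, sw_it] at h
  rcases D_split j h with h | ⟨x, hx, k, l, hkl, h1, h2⟩
  · rw [D_sw (by simp) (by simp)] at h
    exact hfar _ _ (D_mono (Set.empty_subset _) le_rfl h)
  · rw [D_sw (by simp) (by simp)] at h1 h2
    obtain ⟨x1, b⟩ := x
    simp only at hx
    subst hx
    cases b
    · apply hj
      simp only [fl, Bool.not_false, Function.comp_apply, sw_jt hij] at h2
      exact D_symm (D_mono (by simp) (by omega) h2)
    · rw [Function.comp_apply, sw_jt hij] at h1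
      exact hfar _ _ (D_mono (Set.empty_subset _) (by omega) h1)

include hij hj hfar in
theorem sw2 : ¬ Bd n (α ∘ sw i j) j := by
  intro h
  unfold Bd at h hj
  rw [Function.comp_apply, Function.comp_apply, sw_jf, sw_jt hij] at h
  rcases D_split i h with h | ⟨x, hx, k, l, hkl, h1, h2⟩
  · rw [D_sw (by simp) (by simp)] at h
    exact hfar _ _ (D_mono (Set.empty_subset _) le_rfl h)
  · rw [D_sw (by simp) (by simp)] at h1 h2
    obtain ⟨x1, b⟩ := x
    simp only at hx
    subst hx
    cases b
    · apply hj
      simp only [fl, Bool.not_false, Function.comp_apply, sw_it] at h2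
      exact D_mono (by simp) (by omega) h2
    · rw [Function.comp_apply, sw_it] at h1
      exact hfar _ _ (D_mono (Set.empty_subset _) (by omega) h1)

include hij hfar in
theorem sw4 (hi : Bd n α i) : D (α ∘ sw i j) ∅ n ((α ∘ sw i j) (i, false))
    ((α ∘ sw i j) (j, false)) := by
  unfold Bd at hi
  rw [Function.comp_apply, Function.comp_apply, sw_if hij, sw_jf]
  rcases D_split j hi with h | ⟨x, hx, k, l, hkl, h1, h2⟩
  · rw [← D_sw (i := i) (j := j) (by simp) (by simp)] at h
    exact D_mono (Set.empty_subset _) le_rfl h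
  · exfalso
    obtain ⟨x1, b⟩ := x
    simp only at hx
    subst hx
    exact hfar _ _ (D_mono (Set.empty_subset _) (by omega) h1)

include hij hj hfar in
theorem sw3_aux {c : Fin m} (hci : c ≠ i) (hcj : c ≠ j) {y : Hf m} (hy : y.1 = c) {k l : ℕ}
    (hkl : k + l + 1 ≤ n) (h1 : D (α ∘ sw i j) {j, c} k (α y) (α (i, true)))
    (h2 : D (α ∘ sw i j) {j, c} l (α (j, true)) (α (fl y))) : False := by
  have hye : D α ∅ 1 (α y) (α (fl y)) := D_edge (by simp)
  have hyj : D α {j} 1 (α y) (α (fl y)) := D_edge (by simp [hy, hcj])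
  have C1 : D α {i, j, c} l (α (j, true)) (α (fl y)) := by
    rcases D_split i h2 with h | ⟨x, hx, k', l', hkl', h3, h4⟩
    · rw [D_sw (by simp) (by simp)] at h
      exact h
    · exfalso
      rw [D_sw (by simp) (by simp)] at h3 h4
      obtain ⟨x1, b⟩ := x
      simp only at hx
      subst hx
      cases b
      · rw [Function.comp_apply, sw_if hij] at h3
        exact hfar _ _ (D_symm (D_mono (Set.empty_subset _) (by omega) h3))
      · rw [Function.comp_apply, sw_it] at h3
        exact hj (D_symm (D_mono (by intro z hz; simp at hz ⊢; tauto) (by omega) h3))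
  rcases D_split i h1 with h | ⟨x, hx, k', l', hkl', h3, h4⟩
  · rw [D_sw (by simp) (by simp)] at h
    have h5 : D α ∅ k (α (i, true)) (α y) := D_symm (D_mono (Set.empty_subset _) le_rfl h)
    have h6 : D α ∅ l (α (fl y)) (α (j, true)) := D_symm (D_mono (Set.empty_subset _) le_rfl C1)
    exact hfar _ _ (D_mono subset_rfl (by omega) (D_trans (D_trans h5 hye) h6))
  · rw [D_sw (by simp) (by simp)] at h3 h4
    obtain ⟨x1, b⟩ := x
    simp only at hx
    subst hx
    cases b
    · simp only [fl, Bool.not_false, Function.comp_apply, sw_it] at h4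
      exact hfar _ _ (D_symm (D_mono (Set.empty_subset _) (by omega) h4))
    · rw [Function.comp_apply, sw_it] at h3
      have hs : ({j} : Set (Fin m)) ⊆ {x1, j, c} := by intro z hz; simp at hz ⊢; tauto
      have h5 : D α {j} k' (α (j, false)) (α y) := D_symm (D_mono hs le_rfl h3)
      have h6 : D α {j} l (α (fl y)) (α (j, true)) := D_symm (D_mono hs le_rfl C1)
      exact hj (D_mono subset_rfl (by omega) (D_trans (D_trans h5 hyj) h6))

include hij hj hfar in
theorem sw3 {c : Fin m} (hci : c ≠ i) (hcj : c ≠ j) (h : Bd n (α ∘ sw i j) c) : Bd n α c := by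
  have e : ∀ b, (α ∘ sw i j) (c, b) = α (c, b) := fun b => by
    rw [Function.comp_apply, sw_of (by simpa using hci) (by simpa using hcj)]
  unfold Bd at h
  rw [e, e] at h
  have hce : D α ∅ 1 (α (c, false)) (α (c, true)) := D_edge (x := (c, false)) (by simp)
  rcases D_split j h with h | ⟨x, hx, k, l, hkl, h1, h2⟩
  · rcases D_split i h with h | ⟨x, hx, k, l, hkl, h1, h2⟩
    · rw [D_sw (by simp) (by simp)] at h
      exact D_mono (by intro z hz; simp at hz ⊢; tauto) le_rfl h
    · exfalso
      rw [D_sw (by simp) (by simp)] at h1 h2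
      obtain ⟨x1, b⟩ := x
      simp only at hx
      subst hx
      cases b
      · simp only [fl, Bool.not_false, Function.comp_apply, sw_it, sw_if hij] at h1 h2
        have h5 := D_symm (D_mono (Set.empty_subset _) le_rfl h1)
        have h6 := D_symm (D_mono (Set.empty_subset _) le_rfl h2)
        exact hfar _ _ (D_mono subset_rfl (by omega) (D_trans (D_trans h5 hce) h6))
      · simp only [fl, Bool.not_true, Function.comp_apply, sw_it, sw_if hij] at h1 h2
        have h5 := D_mono (Set.empty_subset _) le_rfl h1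
        have h6 := D_mono (Set.empty_subset _) le_rfl h2
        exact hfar _ _ (D_mono subset_rfl (by omega) (D_trans (D_trans h6 (D_symm hce)) h5))
  · exfalso
    obtain ⟨x1, b⟩ := x
    simp only at hx
    subst hx
    cases b
    · simp only [fl, Bool.not_false, Function.comp_apply, sw_jf, sw_jt hij] at h1 h2
      exact sw3_aux hij hj hfar hci hcj (y := (c, false)) rfl hkl h1 h2
    · simp only [fl, Bool.not_true, Function.comp_apply, sw_jf, sw_jt hij] at h1 h2
      exact sw3_aux hij hj hfar hci hcj (y := (c, true)) rfl (by omega) (D_symm h2) (D_symm h1)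

end

/-- the ball -/
theorem ball {α : Hf m → V} {Δ : ℕ} (hα : ∀ v, (univ.filter fun x => α x = v).card ≤ Δ)
    (u : V) (n : ℕ) : (univ.filter fun x => D α ∅ n u (α x)).card ≤ Δ * (Δ + 1) ^ n := by
  induction n with
  | zero =>
    rw [pow_zero, mul_one]
    refine (Finset.card_le_card ?_).trans (hα u)
    intro x hx
    rw [Finset.mem_filter] at hx ⊢
    obtain ⟨l, h1, -, h3⟩ := hx.2
    have : l = [] := List.length_eq_zero_iff.1 (Nat.le_zero.1 h1)
    subst this
    exact ⟨Finset.mem_univ _, Eq.symm h3⟩
  | succ n ih =>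
    have hsub : (univ.filter fun x => D α ∅ (n + 1) u (α x)) ⊆
        (univ.filter fun x => D α ∅ n u (α x)) ∪
          (univ.filter fun x => D α ∅ n u (α x)).biUnion
            fun x => univ.filter fun y => α y = α (fl x) := by
      intro y hy
      rw [Finset.mem_filter] at hy
      obtain ⟨l, h1, h2, h3⟩ := D_symm hy.2
      cases l with
      | nil =>
        refine Finset.mem_union_left _ (Finset.mem_filter.2 ⟨Finset.mem_univ _, ?_⟩)
        have : α y = u := h3
        rw [this]
        exact D_refl _ _ _ _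
      | cons x t =>
        obtain ⟨h4, h5⟩ := h3
        refine Finset.mem_union_right _ (Finset.mem_biUnion.2 ⟨fl x, Finset.mem_filter.2
          ⟨Finset.mem_univ _, D_symm ⟨t, ?_, fun z hz => h2 z (by simp [hz]), h5⟩⟩, ?_⟩)
        · rw [List.length_cons] at h1; omega
        · rw [Finset.mem_filter, fl_fl]
          exact ⟨Finset.mem_univ _, h4.symm⟩
    refine (Finset.card_le_card hsub).trans ((Finset.card_union_le _ _).trans ?_)
    have h1 : ((univ.filter fun x => D α ∅ n u (α x)).biUnion
        fun x => univ.filter fun y => α y = α (fl x)).card ≤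
        (univ.filter fun x => D α ∅ n u (α x)).card * Δ :=
      Finset.card_biUnion_le_card_mul _ _ _ fun x _ => hα _
    calc _ ≤ (univ.filter fun x => D α ∅ n u (α x)).card +
        (univ.filter fun x => D α ∅ n u (α x)).card * Δ := Nat.add_le_add_left h1 _
      _ = (univ.filter fun x => D α ∅ n u (α x)).card * (Δ + 1) := by ring
      _ ≤ (Δ * (Δ + 1) ^ n) * (Δ + 1) := Nat.mul_le_mul_right _ ih
      _ = Δ * (Δ + 1) ^ (n + 1) := by ring

end Pool.Agent.L0h28.GS
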