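import Pool.Agent.L0h98.GS.Def

/-!
# Short walks in configurations
-/

set_option autoImplicit false

namespace Pool.Agent.L0h28.GS

open Finset Classical
open Pool.Agent.L0h98.GS

variable {V : Type} {m : ℕ}

/-- walks, as lists of positions -/
def Wl (α : Hf m → V) : V → List (Hf m) → V → Prop
  | u, [], v => u = v
  | u, x :: l, v => α x = u ∧ Wl α (α (fl x)) l v

/-- `v` can be reached from `u` by a walk with at most `n` edges not in `S` -/
def D (α : Hf m → V) (S : Set (Fin m)) (n : ℕ) (u v : V) : Prop :=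
  ∃ l : List (Hf m), l.length ≤ n ∧ (∀ x ∈ l, x.1 ∉ S) ∧ Wl α u l v

theorem fl_fl (x : Hf m) : fl (fl x) = x := by
  obtain ⟨i, b⟩ := x
  simp [fl]

theorem fl_fst (x : Hf m) : (fl x).1 = x.1 := rfl

theorem wl_append {α : Hf m → V} {l l' : List (Hf m)} : ∀ {u v : V},
    Wl α u (l ++ l') v ↔ ∃ w, Wl α u l w ∧ Wl α w l' v := by
  induction l with
  | nil => intro u v; simp [Wl]
  | cons x l ih =>
    intro u v
    simp only [List.cons_append, Wl, ih]
    constructor
    · rintro ⟨h, w, h1, h2⟩; exact ⟨w, ⟨h, h1⟩, h2⟩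
    · rintro ⟨w, ⟨h, h1⟩, h2⟩; exact ⟨h, w, h1, h2⟩

theorem wl_symm {α : Hf m → V} {l : List (Hf m)} : ∀ {u v : V}, Wl α u l v →
    Wl α v (l.map fl).reverse u := by
  induction l with
  | nil => intro u v h; exact Eq.symm h
  | cons x l ih =>
    rintro u v ⟨h, h1⟩
    rw [List.map_cons, List.reverse_cons, wl_append]
    refine ⟨_, ih h1, rfl, ?_⟩
    rw [fl_fl, h]
    rfl

theorem D_refl (α : Hf m → V) (S : Set (Fin m)) (n : ℕ) (u : V) : D α S n u u :=
  ⟨[], Nat.zero_le _, by simp, rfl⟩

theorem D_mono {α : Hf m → V} {S S' : Set (Fin m)} {n n' : ℕ} {u v : V} (hS : S' ⊆ S)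
    (hn : n ≤ n') (h : D α S n u v) : D α S' n' u v := by
  obtain ⟨l, h1, h2, h3⟩ := h
  exact ⟨l, h1.trans hn, fun x hx hc => h2 x hx (hS hc), h3⟩

theorem D_trans {α : Hf m → V} {S : Set (Fin m)} {n n' : ℕ} {u v w : V}
    (h : D α S n u v) (h' : D α S n' v w) : D α S (n + n') u w := by
  obtain ⟨l, h1, h2, h3⟩ := h
  obtain ⟨l', h1', h2', h3'⟩ := h'
  refine ⟨l ++ l', by rw [List.length_append]; omega, fun x hx => ?_, wl_append.2 ⟨v, h3, h3'⟩⟩
  rcases List.mem_append.1 hx with hx | hx
  · exact h2 x hx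
  · exact h2' x hx

theorem D_symm {α : Hf m → V} {S : Set (Fin m)} {n : ℕ} {u v : V}
    (h : D α S n u v) : D α S n v u := by
  obtain ⟨l, h1, h2, h3⟩ := h
  refine ⟨_, by simpa using h1, fun x hx => ?_, wl_symm h3⟩
  rw [List.mem_reverse, List.mem_map] at hx
  obtain ⟨y, hy, rfl⟩ := hx
  exact h2 y hy

theorem D_edge {α : Hf m → V} {S : Set (Fin m)} {x : Hf m} (hx : x.1 ∉ S) :
    D α S 1 (α x) (α (fl x)) :=
  ⟨[x], le_rfl, by simpa using hx, rfl, rfl⟩

theorem D_congr {α α' : Hf m → V} {S : Set (Fin m)} {n : ℕ} {u v : V}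
    (hα : ∀ x : Hf m, x.1 ∉ S → α x = α' x) (h : D α S n u v) : D α' S n u v := by
  obtain ⟨l, h1, h2, h3⟩ := h
  refine ⟨l, h1, h2, ?_⟩
  clear h1
  induction l generalizing u with
  | nil => exact h3
  | cons x l ih =>
    obtain ⟨h4, h5⟩ := h3
    have hx : x.1 ∉ S := h2 x (by simp)
    refine ⟨by rw [← hα x hx, h4], ?_⟩
    rw [← hα (fl x) hx]
    exact ih (fun y hy => h2 y (by simp [hy])) h5

/-- a walk using the edge `e` -/
theorem D_split {α : Hf m → V} {S : Set (Fin m)} (e : Fin m) {n : ℕ} {P Q : V}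
    (h : D α S n P Q) : D α (insert e S) n P Q ∨ ∃ x : Hf m, x.1 = e ∧ ∃ k l : ℕ, k + l + 1 ≤ n ∧
      D α (insert e S) k P (α x) ∧ D α (insert e S) l (α (fl x)) Q := by
  obtain ⟨l, h1, h2, h3⟩ := h
  induction l generalizing P n with
  | nil =>
    left
    have : P = Q := h3
    rw [this]
    exact D_refl _ _ _ _
  | cons x l ih =>
    obtain ⟨h4, h5⟩ := h3
    obtain ⟨n, rfl⟩ : ∃ n', n = n' + 1 := ⟨n - 1, by rw [List.length_cons] at h1; omega⟩
    have h6 := ih (n := n) (by rw [List.length_cons] at h1; omega)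
      (fun y hy => h2 y (by simp [hy])) h5
    have hxS : x.1 ∉ S := h2 x (by simp)
    by_cases hx : x.1 = e
    · rcases h6 with h6 | ⟨y, hy, k, l', hkl, h7, h8⟩
      · right
        exact ⟨x, hx, 0, n, by omega, by rw [h4]; exact D_refl _ _ _ _, h6⟩
      · by_cases hyx : y = x
        · subst hyx
          right
          exact ⟨y, hx, 0, l', by omega, by rw [h4]; exact D_refl _ _ _ _, h8⟩
        · have : fl y = x := by
            obtain ⟨i, b⟩ := x
            obtain ⟨i', b'⟩ := y
            simp only at hx hy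
            subst hx hy
            have : b' ≠ b := fun h => hyx (by rw [h])
            simp only [fl, Prod.mk.injEq, true_and]
            cases b <;> cases b' <;> simp_all
          left
          rw [this, h4] at h8
          exact D_mono subset_rfl (by omega) h8
    · have hxS' : x.1 ∉ insert e S := by
        rw [Set.mem_insert_iff, not_or]
        exact ⟨hx, hxS⟩
      have he := D_edge (α := α) hxS'
      rw [h4] at he
      rcases h6 with h6 | ⟨y, hy, k, l', hkl, h7, h8⟩
      · left
        exact D_mono subset_rfl (by omega) (D_trans he h6)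
      · right
        exact ⟨y, hy, 1 + k, l', by omega, D_trans he h7, h8⟩

/-- a walk can be shortened to a trail -/
theorem D_trail {α : Hf m → V} {S : Set (Fin m)} {n : ℕ} {u v : V} (h : D α S n u v) :
    ∃ l : List (Hf m), l.length ≤ n ∧ (∀ x ∈ l, x.1 ∉ S) ∧ (l.map Prod.fst).Nodup ∧
      Wl α u l v := by
  obtain ⟨l, h1, h2, h3⟩ := h
  induction l generalizing u n with
  | nil => exact ⟨[], by simp, by simp, by simp, h3⟩
  | cons x l ih =>
    obtain ⟨h4, h5⟩ := h3
    obtain ⟨n, rfl⟩ : ∃ n', n = n' + 1 := ⟨n - 1, by rw [List.length_cons] at h1; omega⟩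
    obtain ⟨t, t1, t2, t3, t4⟩ := ih (n := n) (by rw [List.length_cons] at h1; omega)
      (fun y hy => h2 y (by simp [hy])) h5
    by_cases hx : x.1 ∈ t.map Prod.fst
    · rw [List.mem_map] at hx
      obtain ⟨y, hy, hyx⟩ := hx
      obtain ⟨s, r, rfl⟩ := List.append_of_mem hy
      rw [wl_append] at t4
      obtain ⟨w, -, t5, t6⟩ := t4
      rw [List.length_append, List.length_cons] at t1
      rw [List.map_append, List.nodup_append] at t3
      by_cases hyx' : y = x
      · subst hyx'
        refine ⟨y :: r, by rw [List.length_cons]; omega, fun z hz => t2 z (by simp at hz ⊢; tauto),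
          t3.2.1, h4, t6⟩
      · have h7 : fl y = x := by
          obtain ⟨i, b⟩ := x
          obtain ⟨i', b'⟩ := y
          simp only at hyx
          subst hyx
          have : b' ≠ b := fun h => hyx' (by rw [h])
          simp only [fl, Prod.mk.injEq, true_and]
          cases b <;> cases b' <;> simp_all
        rw [h7, h4] at t6
        have t7 := t3.2.1
        rw [List.map_cons, List.nodup_cons] at t7
        exact ⟨r, by omega, fun z hz => t2 z (by simp at hz ⊢; tauto), t7.2, t6⟩
    · refine ⟨x :: t, by rw [List.length_cons]; omega, ?_, ?_, h4, t4⟩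
      · intro z hz
        rcases List.mem_cons.1 hz with rfl | hz
        · exact h2 z (by simp)
        · exact t2 z hz
      · rw [List.map_cons, List.nodup_cons]
        exact ⟨hx, t3⟩

/-- the edge `i` is on a short closed walk using it once -/
def Bd (n : ℕ) (α : Hf m → V) (i : Fin m) : Prop := D α {i} n (α (i, false)) (α (i, true))

theorem chain_iff (a : Hf m → V) (π : Equiv.Perm (Hf m)) (z : Hf m) (l : List (Hf m)) :
    ∀ x : Hf m, List.IsChain (Lk a π) (x :: (l ++ [z])) ↔
      Wl (fun x => a (π x)) (a (π (fl x))) l (a (π z)) := by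
  induction l with
  | nil => intro x; simp [Wl, Lk]
  | cons y l ih =>
    intro x
    rw [List.cons_append, List.isChain_cons_cons, ih y]
    simp only [Wl, Lk]
    constructor
    · rintro ⟨h1, h2⟩; exact ⟨h1.symm, h2⟩
    · rintro ⟨h1, h2⟩; exact ⟨h1.symm, h2⟩

theorem bad_iff {g : ℕ} (hg : 1 ≤ g) (a : Hf m → V) (π : Equiv.Perm (Hf m)) (i : Fin m) :
    Bad g a π i ↔ Bd (g - 1) (fun x => a (π x)) i := by
  constructor
  · rintro ⟨b, l, h1, h2, h3⟩
    rw [chain_iff] at h3
    rw [List.nodup_cons] at h2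
    have h4 : D (fun x => a (π x)) {i} (g - 1) (a (π (fl (i, b)))) (a (π (i, b))) := by
      refine ⟨l, by omega, fun x hx hc => h2.1 ?_, h3⟩
      rw [Set.mem_singleton_iff] at hc
      exact List.mem_map.2 ⟨x, hx, hc⟩
    cases b
    · exact D_symm h4
    · exact h4
  · intro h
    obtain ⟨l, h1, h2, h3, h4⟩ := D_trail h
    refine ⟨true, l, by omega, ?_, ?_⟩
    · rw [List.nodup_cons]
      refine ⟨fun hc => ?_, h3⟩
      obtain ⟨x, hx, hxi⟩ := List.mem_map.1 hc
      exact h2 x hx hxi
    · rw [chain_iff]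
      exact h4

end Pool.Agent.L0h28.GS
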